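import Pool.Agent.Lib_helper16.KP.Defs

/-!
# Coverings with a group of prime power order: definitions
-/

set_option autoImplicit false

namespace Pool.Agent.PG

open NumberField Pool.Agent.TT Pool.Agent.KT

/-- The number of eigenvalues `y` of a matrix (with multiplicity) that are congruent modulo the
maximal ideal to a root of unity all of whose conjugates over the field of the roots of unity of
order `m` are congruent to eigenvalues: for some `M > 0` the number `y ^ M` is congruent to `1` and
for all `k` prime to `M` with `k ≡ 1` modulo `m` the power `y ^ k` is congruent to an eigenvalue. -/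
noncomputable def cycEig {p : ℕ} [Fact p.Prime] {d : ℕ} (N : Matrix (Fin d) (Fin d) ℂ_[p])
    (m : ℕ) : ℕ := by
  classical
  exact (N.charpoly.roots.filter fun y => ∃ M : ℕ, 0 < M ∧ ‖y ^ M - 1‖ < 1 ∧
    ∀ k : ℕ, k.Coprime M → k % m = 1 % m → ∃ y' ∈ N.charpoly.roots, ‖y ^ k - y'‖ < 1).card

/-- A system of eigenvalues of rank `r` and exponent `Q` on the affine space with `M` coordinates
over the residue fields of `L`: for all finite fields `F` over a residue field of `L` and all points
`x` over `F` a multiset of `r` roots of unity of order `Q`, such that for all homomorphisms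
`u : F → F'` (also the Frobenius automorphism) the multiset at the point `u x` over `F'` consists of
the `k`-th powers, where `|F'| = |F| ^ k`. (For example, the eigenvalues of Frobenius at `x` for a
lisse sheaf of rank `r` with a finite monodromy group whose exponent divides `Q`; at the points and
in the characteristics where the sheaf is not lisse take `r` times the number `1`.) -/
def PowerSystem {L : Type} [Field L] (Q r : ℕ) {M : ℕ}
    (ε : ∀ (F : Type) [Field F] [Fintype F], (𝓞 L →+* F) → (Fin M → F) → Multiset Qbar) : Prop :=
  (∀ (F : Type) [Field F] [Fintype F] (φ : 𝓞 L →+* F) (x : Fin M → F),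
    (ε F φ x).card = r ∧ ∀ w ∈ ε F φ x, w ^ Q = 1) ∧
  ∀ (F F' : Type) [Field F] [Fintype F] [Field F'] [Fintype F'] (φ : 𝓞 L →+* F) (u : F →+* F')
    (k : ℕ), Fintype.card F' = Fintype.card F ^ k → ∀ x : Fin M → F,
      ε F' (u.comp φ) (fun i => u (x i)) = (ε F φ x).map (· ^ k)

/-- The sum over all strata of the coefficient `c` times the sum over the points `x` with
`G(x) / D(x) ≠ 0` of the `m`-th power residue symbol of `H(x)` times the sum of the numbers in the
multiset `ε(x)`. -/
noncomputable def twistedSum {K : Type} [Field K] [Algebra K Qbar] {F : Type} [Field F] [Fintype F]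
    (m : ℕ) (ζ : 𝓞 K) (φ : 𝓞 K →+* F) {s : ℕ} (S : Fin s → TowerStratum K)
    (ε : ∀ i, (Fin (S i).M → F) → Multiset Qbar) : Qbar :=
  ∑ i, ((S i).c : Qbar) * ∑ x : Fin (S i).M → F,
    algebraMap K Qbar ((residueSymbol m ζ φ ((S i).H.eval₂ φ x) *
      residueSymbol 1 1 φ ((S i).val φ x) : 𝓞 K) : K) * (ε i x).sum

end Pool.Agent.PG
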